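import Mathlib

set_option autoImplicit false

namespace Pool.Agent.Results.MP_0d307c_co.ThinRCTransitive

variable {G : Type*} [Group G] {r : ℕ}

/-- `(G, {ρ 0, …, ρ (r-1)})` is a C-group of rank `r`. -/
structure IsCGroup (ρ : Fin r → G) : Prop where
  distinct : Function.Injective ρ
  involution : ∀ i, orderOf (ρ i) = 2
  generates : Subgroup.closure (Set.range ρ) = ⊤
  intersection : ∀ I J : Set (Fin r),
    Subgroup.closure (ρ '' I) ⊓ Subgroup.closure (ρ '' J) = Subgroup.closure (ρ '' (I ∩ J))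

/-- The subgroup `G_i` generated by all `ρ j` with `j ≠ i`. -/
def maxParabolic (ρ : Fin r → G) (i : Fin r) : Subgroup G :=
  Subgroup.closure (ρ '' {j | j ≠ i})

/-- The right coset `G_i g`. -/
def coset (ρ : Fin r → G) (i : Fin r) (g : G) : Set G :=
  {y | ∃ h ∈ maxParabolic ρ i, y = h * g}

/-- Elements of the coset geometry: pairs of a type `i` and a right coset of `G_i`. -/
def IsElement (ρ : Fin r → G) (x : Fin r × Set G) : Prop :=
  ∃ g : G, x.2 = coset ρ x.1 g

/-- Two elements are incident iff the cosets meet. -/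
def Incident (x y : Fin r × Set G) : Prop := (x.2 ∩ y.2).Nonempty

/-- A flag is a set of pairwise incident elements. -/
def IsFlag (ρ : Fin r → G) (F : Set (Fin r × Set G)) : Prop :=
  (∀ x ∈ F, IsElement ρ x) ∧ ∀ x ∈ F, ∀ y ∈ F, Incident x y

/-- A chamber is a flag containing an element of each type. -/
def IsChamber (ρ : Fin r → G) (F : Set (Fin r × Set G)) : Prop :=
  IsFlag ρ F ∧ ∀ i, ∃ x ∈ F, x.1 = i

/-- The residue of a flag `F`: the elements not in `F`, of a type not met by `F`, incident with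
every element of `F`. -/
def residue (ρ : Fin r → G) (F : Set (Fin r × Set G)) : Set (Fin r × Set G) :=
  {x | IsElement ρ x ∧ x ∉ F ∧ (∀ y ∈ F, y.1 ≠ x.1) ∧ ∀ y ∈ F, Incident x y}

/-- The incidence graph of the residue of `F`. -/
def residueGraph (ρ : Fin r → G) (F : Set (Fin r × Set G)) : SimpleGraph (residue ρ F) where
  Adj x y := x ≠ y ∧ Incident x.1 y.1
  symm := ⟨fun _ _ h => ⟨h.1.symm, by
    have := h.2; unfold Incident at this ⊢; rwa [Set.inter_comm]⟩⟩
  loopless := ⟨fun _ h => h.1 rfl⟩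

/-- Thin: every flag with `r - 1` elements lies in exactly two chambers. -/
def Thin (ρ : Fin r → G) : Prop :=
  ∀ F, IsFlag ρ F → F.ncard + 1 = r → {c | IsChamber ρ c ∧ F ⊆ c}.ncard = 2

/-- Residually connected: the incidence graph of every residue of rank at least `2` is connected
and every residue of rank `1` is nonempty. -/
def ResiduallyConnected (ρ : Fin r → G) : Prop :=
  (∀ F, IsFlag ρ F → F.ncard + 2 ≤ r → (residueGraph ρ F).Connected) ∧
    ∀ F, IsFlag ρ F → F.ncard + 1 = r → (residue ρ F).Nonempty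

/-- Right multiplication of a set of elements of the geometry by a group element. -/
def translate (F : Set (Fin r × Set G)) (g : G) : Set (Fin r × Set G) :=
  (fun x => (x.1, (fun y => y * g) '' x.2)) '' F

/-- Flag-transitive: `G`, acting by right multiplication, is transitive on chambers. -/
def FlagTransitive (ρ : Fin r → G) : Prop :=
  ∀ c d, IsChamber ρ c → IsChamber ρ d → ∃ g : G, d = translate c g

/-! ### Basic lemmas -/

lemma mem_coset {ρ : Fin r → G} {i : Fin r} {g y : G} :
    y ∈ coset ρ i g ↔ y * g⁻¹ ∈ maxParabolic ρ i := by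
  constructor
  · rintro ⟨h, hh, rfl⟩
    simpa using hh
  · intro h
    exact ⟨y * g⁻¹, h, by simp⟩

lemma self_mem_coset {ρ : Fin r → G} (i : Fin r) (g : G) : g ∈ coset ρ i g := by
  rw [mem_coset]; simp [one_mem]

lemma coset_eq {ρ : Fin r → G} {i : Fin r} {g y : G} (h : y ∈ coset ρ i g) :
    coset ρ i g = coset ρ i y := by
  rw [mem_coset] at h
  ext z
  rw [mem_coset, mem_coset]
  constructor
  · intro hz
    have := mul_mem hz (inv_mem h)
    simpa [mul_assoc] using this
  · intro hz
    have := mul_mem hz h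
    simpa [mul_assoc] using this

lemma elt_eq {ρ : Fin r → G} {x : Fin r × Set G} (hx : IsElement ρ x) {y : G} (hy : y ∈ x.2) :
    x = (x.1, coset ρ x.1 y) := by
  obtain ⟨g, hg⟩ := hx
  rw [hg] at hy
  ext1
  · rfl
  · rw [hg]; exact coset_eq hy

lemma flag_injOn {ρ : Fin r → G} {F : Set (Fin r × Set G)} (hF : IsFlag ρ F) :
    Set.InjOn Prod.fst F := by
  intro x hx y hy hxy
  obtain ⟨z, hzx, hzy⟩ := hF.2 x hx y hy
  rw [elt_eq (hF.1 x hx) hzx, elt_eq (hF.1 y hy) hzy, hxy]

lemma flag_finite {ρ : Fin r → G} {F : Set (Fin r × Set G)} (hF : IsFlag ρ F) : F.Finite :=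
  Set.Finite.of_finite_image (Set.toFinite _) (flag_injOn hF)

lemma flag_ncard_le {ρ : Fin r → G} {F : Set (Fin r × Set G)} (hF : IsFlag ρ F) :
    F.ncard ≤ r := by
  rw [← (flag_injOn hF).ncard_image]
  calc _ ≤ (Set.univ : Set (Fin r)).ncard := Set.ncard_le_ncard (Set.subset_univ _) (Set.toFinite _)
    _ = r := by rw [Set.ncard_univ]; simp

lemma chamber_of_ncard {ρ : Fin r → G} {F : Set (Fin r × Set G)} (hF : IsFlag ρ F)
    (h : F.ncard = r) : IsChamber ρ F := by
  refine ⟨hF, fun i => ?_⟩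
  have h1 : (Prod.fst '' F) = (Set.univ : Set (Fin r)) := by
    apply Set.eq_of_subset_of_ncard_le (Set.subset_univ _)
    rw [(flag_injOn hF).ncard_image, h, Set.ncard_univ]; simp
  have : i ∈ Prod.fst '' F := by rw [h1]; trivial
  obtain ⟨x, hx, hxi⟩ := this
  exact ⟨x, hx, hxi⟩

lemma chamber_ncard {ρ : Fin r → G} {c : Set (Fin r × Set G)} (hc : IsChamber ρ c) :
    c.ncard = r := by
  rw [← (flag_injOn hc.1).ncard_image]
  have : (Prod.fst '' c) = (Set.univ : Set (Fin r)) := by
    ext i
    simp only [Set.mem_univ, iff_true]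
    obtain ⟨x, hx, hxi⟩ := hc.2 i
    exact ⟨x, hx, hxi⟩
  rw [this, Set.ncard_univ]; simp

omit [Group G] in
lemma incident_comm {x y : Fin r × Set G} (h : Incident x y) : Incident y x := by
  unfold Incident at h ⊢; rwa [Set.inter_comm]

lemma incident_self {ρ : Fin r → G} {x : Fin r × Set G} (h : IsElement ρ x) : Incident x x := by
  obtain ⟨g, hg⟩ := h
  exact ⟨g, by rw [hg]; exact ⟨self_mem_coset _ _, self_mem_coset _ _⟩⟩

lemma flag_insert {ρ : Fin r → G} {F : Set (Fin r × Set G)} (hF : IsFlag ρ F)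
    {x : Fin r × Set G} (hx : x ∈ residue ρ F) : IsFlag ρ (insert x F) := by
  constructor
  · rintro y (rfl | hy)
    · exact hx.1
    · exact hF.1 y hy
  · rintro y (rfl | hy) z (rfl | hz)
    · exact incident_self hx.1
    · exact hx.2.2.2 z hz
    · exact incident_comm (hx.2.2.2 y hy)
    · exact hF.2 y hy z hz

lemma ncard_insert' {ρ : Fin r → G} {F : Set (Fin r × Set G)} (hF : IsFlag ρ F)
    {x : Fin r × Set G} (hx : x ∈ residue ρ F) : (insert x F).ncard = F.ncard + 1 :=
  Set.ncard_insert_of_notMem hx.2.1 (flag_finite hF)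

/-- Every flag lies in a chamber. -/
lemma exists_chamber {ρ : Fin r → G} (hrc : ResiduallyConnected ρ) :
    ∀ n : ℕ, ∀ F, IsFlag ρ F → F.ncard + n = r → ∃ c, IsChamber ρ c ∧ F ⊆ c := by
  intro n
  induction n with
  | zero => exact fun F hF h => ⟨F, chamber_of_ncard hF h, le_rfl⟩
  | succ n ih =>
    intro F hF h
    have hne : (residue ρ F).Nonempty := by
      rcases n with _ | n
      · exact hrc.2 F hF h
      · obtain ⟨x⟩ := (hrc.1 F hF (by omega)).nonempty
        exact ⟨x.1, x.2⟩
    obtain ⟨x, hx⟩ := hne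
    obtain ⟨c, hc, hsub⟩ := ih (insert x F) (flag_insert hF hx) (by rw [ncard_insert' hF hx]; omega)
    exact ⟨c, hc, (Set.subset_insert _ _).trans hsub⟩

/-- The chamber `{G_0 g, …, G_{r-1} g}`. -/
def base (ρ : Fin r → G) (g : G) : Set (Fin r × Set G) := Set.range fun i => (i, coset ρ i g)

lemma base_chamber (ρ : Fin r → G) (g : G) : IsChamber ρ (base ρ g) := by
  refine ⟨⟨?_, ?_⟩, fun i => ⟨(i, coset ρ i g), ⟨i, rfl⟩, rfl⟩⟩
  · rintro _ ⟨i, rfl⟩
    exact ⟨g, rfl⟩
  · rintro _ ⟨i, rfl⟩ _ ⟨j, rfl⟩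
    exact ⟨g, self_mem_coset _ _, self_mem_coset _ _⟩

lemma not_mem_parabolic {ρ : Fin r → G} (h : IsCGroup ρ) (i : Fin r) :
    ρ i ∉ maxParabolic ρ i := by
  intro hi
  have h1 : ρ i ∈ Subgroup.closure (ρ '' {i}) ⊓ Subgroup.closure (ρ '' {j | j ≠ i}) :=
    ⟨Subgroup.subset_closure ⟨i, rfl, rfl⟩, hi⟩
  rw [h.intersection] at h1
  have h2 : ({i} ∩ {j | j ≠ i} : Set (Fin r)) = ∅ := by
    ext j; simp
  rw [h2, Set.image_empty, Subgroup.closure_empty, Subgroup.mem_bot] at h1
  have := h.involution i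
  rw [h1, orderOf_one] at this
  omega

/-- Panels of a standard chamber lie only in standard chambers. -/
lemma panel {ρ : Fin r → G} (h : IsCGroup ρ) (ht : Thin ρ) {F : Set (Fin r × Set G)}
    (hF : IsFlag ρ F) (hr : F.ncard + 1 = r) {g : G} (hg : F ⊆ base ρ g)
    {c : Set (Fin r × Set G)} (hc : IsChamber ρ c) (hFc : F ⊆ c) : ∃ g', c = base ρ g' := by
  -- a missing type
  obtain ⟨i, hi⟩ : ∃ i : Fin r, (i, coset ρ i g) ∉ F := by
    by_contra hcon
    push Not at hcon
    have : base ρ g ⊆ F := by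
      rintro _ ⟨i, rfl⟩
      exact hcon i
    have h1 := Set.ncard_le_ncard this (flag_finite hF)
    rw [chamber_ncard (base_chamber ρ g)] at h1
    omega
  have hsub : F ⊆ base ρ (ρ i * g) := by
    intro x hx
    obtain ⟨j, rfl⟩ := hg hx
    refine ⟨j, ?_⟩
    have hji : j ≠ i := by
      rintro rfl
      exact hi hx
    have : ρ i * g ∈ coset ρ j g := by
      rw [mem_coset]
      simp only [mul_inv_cancel_right]
      exact Subgroup.subset_closure ⟨i, Ne.symm hji, rfl⟩
    simp only [Prod.mk.injEq, true_and]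
    exact (coset_eq this).symm
  have hne : base ρ g ≠ base ρ (ρ i * g) := by
    intro heq
    have : (i, coset ρ i g) ∈ base ρ (ρ i * g) := heq ▸ ⟨i, rfl⟩
    obtain ⟨j, hj⟩ := this
    simp only [Prod.mk.injEq] at hj
    obtain ⟨rfl, hj⟩ := hj
    have : ρ j * g ∈ coset ρ j g := hj ▸ self_mem_coset _ _
    rw [mem_coset] at this
    simp only [mul_inv_cancel_right] at this
    exact not_mem_parabolic h j this
  have hcard := ht F hF hr
  obtain ⟨a, b, hab, hset⟩ := Set.ncard_eq_two.mp hcard
  have m1 : base ρ g ∈ ({a, b} : Set _) := hset ▸ ⟨base_chamber ρ g, hg⟩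
  have m2 : base ρ (ρ i * g) ∈ ({a, b} : Set _) := hset ▸ ⟨base_chamber ρ _, hsub⟩
  have m3 : c ∈ ({a, b} : Set _) := hset ▸ ⟨hc, hFc⟩
  rcases m1 with m1 | m1 <;> rcases m2 with m2 | m2 <;> rcases m3 with m3 | m3
  all_goals first
    | exact ⟨g, m3.trans m1.symm⟩
    | exact ⟨ρ i * g, m3.trans m2.symm⟩
    | exact absurd (m1.trans m2.symm) hne

/-- If one chamber on a flag is standard, then all are. -/
lemma main {ρ : Fin r → G} (h : IsCGroup ρ) (ht : Thin ρ) (hrc : ResiduallyConnected ρ) :
    ∀ n : ℕ, ∀ F, IsFlag ρ F → F.ncard + n = r →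
      ∀ g, F ⊆ base ρ g → ∀ c, IsChamber ρ c → F ⊆ c → ∃ g', c = base ρ g' := by
  intro n
  induction n with
  | zero =>
    intro F hF hr g hg c hc hFc
    have h1 : F = c := Set.eq_of_subset_of_ncard_le hFc
      (by rw [chamber_ncard hc]; omega) (flag_finite hc.1)
    have h2 : F = base ρ g := Set.eq_of_subset_of_ncard_le hg
      (by rw [chamber_ncard (base_chamber ρ g)]; omega) (flag_finite (base_chamber ρ g).1)
    exact ⟨g, h1.symm.trans h2⟩
  | succ n ih =>
    intro F hF hr g hg c hc hFc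
    rcases n with _ | n
    · exact panel h ht hF hr hg hc hFc
    -- residue elements of `base ρ g` and of `c`
    have key : ∀ d, IsChamber ρ d → F ⊆ d → ∃ x, x ∈ d ∧ x ∈ residue ρ F := by
      intro d hd hFd
      obtain ⟨x, hxd, hxF⟩ : ∃ x ∈ d, x ∉ F := by
        by_contra hcon
        push Not at hcon
        have := Set.ncard_le_ncard hcon (flag_finite hF)
        rw [chamber_ncard hd] at this
        omega
      refine ⟨x, hxd, hd.1.1 x hxd, hxF, ?_, fun y hy => hd.1.2 x hxd y (hFd hy)⟩
      intro y hy hyx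
      exact hxF ((flag_injOn hd.1 (hFd hy) hxd hyx) ▸ hy)
    obtain ⟨x, hxg, hx⟩ := key _ (base_chamber ρ g) hg
    obtain ⟨y, hyc, hy⟩ := key c hc hFc
    have hconn := (hrc.1 F hF (by omega)).preconnected ⟨x, hx⟩ ⟨y, hy⟩
    obtain ⟨w⟩ := hconn
    -- along the walk all elements lie in a standard chamber containing `F`
    have walk : ∀ (a b : residue ρ F), (residueGraph ρ F).Walk a b →
        (∃ g', insert a.1 F ⊆ base ρ g') → ∃ g', insert b.1 F ⊆ base ρ g' := by
      intro a b p
      induction p with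
      | nil => exact id
      | cons hadj p ihp =>
        rename_i u v w'
        intro hu
        apply ihp
        obtain ⟨g₁, hg₁⟩ := hu
        have hne : u ≠ v := hadj.1
        have hinc : Incident u.1 v.1 := hadj.2
        have hvu : v.1 ∈ residue ρ (insert u.1 F) := by
          refine ⟨v.2.1, ?_, ?_, ?_⟩
          · rintro (h' | h')
            · exact hne (Subtype.ext h'.symm)
            · exact v.2.2.1 h'
          · rintro z (rfl | hz)
            · intro huv
              apply hne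
              apply Subtype.ext
              obtain ⟨t, ht1, ht2⟩ := hinc
              rw [elt_eq u.2.1 ht1, elt_eq v.2.1 ht2, huv]
            · exact v.2.2.2.1 z hz
          · rintro z (rfl | hz)
            · exact incident_comm hinc
            · exact v.2.2.2.2 z hz
        have hfu := flag_insert hF u.2
        have hfuv := flag_insert hfu hvu
        obtain ⟨d, hd, hsub⟩ := exists_chamber hrc n (insert v.1 (insert u.1 F)) hfuv
          (by rw [ncard_insert' hfu hvu, ncard_insert' hF u.2]; omega)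
        obtain ⟨g₂, hg₂⟩ := ih (insert u.1 F) hfu (by rw [ncard_insert' hF u.2]; omega) g₁ hg₁ d hd
          ((Set.subset_insert _ _).trans hsub)
        refine ⟨g₂, ?_⟩
        rw [← hg₂]
        intro z hz
        apply hsub
        rcases hz with rfl | hz
        · exact Set.mem_insert _ _
        · exact Set.mem_insert_of_mem _ (Set.mem_insert_of_mem _ hz)
    obtain ⟨g', hg'⟩ := walk _ _ w ⟨g, Set.insert_subset hxg hg⟩
    exact ih (insert y F) (flag_insert hF hy) (by rw [ncard_insert' hF hy]; omega) g' hg' c hc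
      (Set.insert_subset hyc hFc)

lemma translate_base (ρ : Fin r → G) (g h : G) :
    translate (base ρ g) h = base ρ (g * h) := by
  have key : ∀ i, (fun y => y * h) '' coset ρ i g = coset ρ i (g * h) := by
    intro i
    ext z
    constructor
    · rintro ⟨y, ⟨k, hk, rfl⟩, rfl⟩
      exact ⟨k, hk, by simp [mul_assoc]⟩
    · rintro ⟨k, hk, rfl⟩
      exact ⟨k * g, ⟨k, hk, rfl⟩, by simp [mul_assoc]⟩
  unfold translate base
  rw [← Set.range_comp]
  congr 1
  funext i
  change (i, (fun y => y * h) '' coset ρ i g) = _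
  rw [key i]

/-- **Main result.** For every C-group `(G, {ρ 0, …, ρ (r-1)})` (of any rank `r`, `G` finite or
infinite), if its coset geometry is thin and residually connected, then it is flag-transitive. -/
theorem result (G : Type*) [Group G] (r : ℕ) (ρ : Fin r → G) (h : IsCGroup ρ)
    (ht : Thin ρ) (hrc : ResiduallyConnected ρ) : FlagTransitive ρ := by
  have hempty : IsFlag ρ (∅ : Set (Fin r × Set G)) := ⟨by simp, by simp⟩
  have key : ∀ c, IsChamber ρ c → ∃ g, c = base ρ g := fun c hc =>
    main h ht hrc r ∅ hempty (by simp) 1 (Set.empty_subset _) c hc (Set.empty_subset _)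
  intro c d hc hd
  obtain ⟨g, rfl⟩ := key c hc
  obtain ⟨g', rfl⟩ := key d hd
  refine ⟨g⁻¹ * g', ?_⟩
  rw [translate_base]
  simp

end Pool.Agent.Results.MP_0d307c_co.ThinRCTransitive
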